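import Pool.Agent.H42.FD.G

/-!
# MP_1f2761, `k = 2`: the row KER (the block kernel)
-/

set_option autoImplicit false

namespace Pool.Agent.H24.FD

open Finset G42

theorem omK_G (q m g t₁ : ℕ) (wm : ℕ → ℕ → ℝ) (t : ℕ) (z : ℕ × ℕ) :
    omK q m g t₁ wm t z = G q m wm (gd q g) (t - t₁) (nb m g t₁ t) z.1 z.2 := rfl

theorem nb_le (m g t₁ t : ℕ) (h : t₁ + g ≤ t) : g + nb m g t₁ t * m ≤ t - t₁ := by
  have h1 : nb m g t₁ t * m ≤ t - t₁ - g := Nat.div_mul_le_self _ _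
  omega

theorem ker : KERStmt := by
  intro q m g t₁ t κ wm hq hm hg ht hκ hw
  have hφ := lo_gd hq hg
  have hq1 : 1 ≤ q := by omega
  have hq1' : (1 : ℝ) ≤ q := by exact_mod_cast hq1
  have hn := nb_le m g t₁ t ht
  have hbig : ∀ V, ∀ j, t - t₁ ≤ j → ∀ b, ∑ A ∈ range (q ^ j),
      omK q m g t₁ wm t (V, b * q ^ j + A) = (q : ℝ) ^ j := by
    intro V j hj b
    simp only [omK_G]
    exact sum_big hq1 hw hφ hn hj V b
  refine ⟨?_, ?_, ?_, ?_, ?_, ?_⟩
  · intro z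
    rw [omK_G]
    exact g_nonneg hw hφ _ _ _ _
  · intro V
    have h := hbig V t (by omega) 0
    simpa using h
  · intro z
    rw [omK_G]
    refine (g_le hq1 hw hφ _ _ _ _).trans ?_
    have h1 : (nb m g t₁ t : ℝ) * m ≤ t := by
      have : nb m g t₁ t * m ≤ t := by omega
      exact_mod_cast this
    have h2 : (q : ℝ) ^ (κ * (nb m g t₁ t * m)) ≤ (q : ℝ) ^ (κ * t) :=
      Real.rpow_le_rpow_of_exponent_le hq1' (mul_le_mul_of_nonneg_left h1 hκ)
    linarith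
  · intro V i hi b _
    rcases le_or_gt (t - t₁) (t - i) with h | h
    · rw [hbig V (t - i) h b]
      have h1 : (1 : ℝ) ≤ (q : ℝ) ^ (κ * (i + m)) :=
        Real.one_le_rpow hq1' (mul_nonneg hκ (by positivity))
      have h2 : (0 : ℝ) ≤ (q : ℝ) ^ (t - i) := by positivity
      nlinarith [mul_nonneg (sub_nonneg.mpr h1) h2]
    · simp only [omK_G]
      refine (sum_part hq1 hκ hw hφ _ _ hn (t - i) h.le V b).trans ?_
      have h1 : ((t - t₁ : ℕ) : ℝ) - (t - i : ℕ) + m ≤ i + m := by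
        rw [Nat.cast_sub (by omega), Nat.cast_sub hi]
        have : (0 : ℝ) ≤ t₁ := Nat.cast_nonneg t₁
        linarith
      have h2 : (q : ℝ) ^ (κ * (((t - t₁ : ℕ) : ℝ) - (t - i : ℕ) + m)) ≤
          (q : ℝ) ^ (κ * (i + m)) :=
        Real.rpow_le_rpow_of_exponent_le hq1' (mul_le_mul_of_nonneg_left h1 hκ)
      have h3 : (0 : ℝ) ≤ (q : ℝ) ^ (t - i) := by positivity
      gcongr
  · intro V i hi b _
    exact hbig V (t - i) (by omega) b
  · intro z
    rw [omK_G, omK_G]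
    exact (g_per hφ hn le_rfl _ _).symm

end Pool.Agent.H24.FD
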