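import Pool.Agent.H24.FD.P4
import Pool.Agent.H42.FD.KER

/-!
# MP_1f2761, `k = 2`: the row GCE (cells with large phase sums)
-/

set_option autoImplicit false

open Finset Pool.K2 Pool.FD MeasureTheory

namespace Pool.Agent.H24.FD

theorem fl_lt42 {T : ℕ} (hT : 0 < T) (x : ℝ) : fl T x < T := by
  unfold fl
  have h0 : (0 : ℤ) < T := by exact_mod_cast hT
  have h1 := Int.emod_nonneg ⌊x⌋ h0.ne'
  have h2 := Int.emod_lt_of_pos ⌊x⌋ h0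
  omega

theorem ix_lt42 {K : ℕ} (hK : 0 < K) (x : ℝ) : ix K x < K := fl_lt42 hK _

theorem omv_nonneg42 {q m g t₁ t : ℕ} {κ : ℝ} {wm : ℕ → ℕ → ℝ} (hq : 2 ≤ q) (hm : 1 ≤ m)
    (hg : 1 ≤ g) (ht : t₁ + g ≤ t) (hκ : 0 ≤ κ) (hw : MK q m κ wm) (V A : ℕ) :
    0 ≤ omv q m g t₁ wm t V A := (ker q m g t₁ t κ wm hq hm hg ht hκ hw).1 (V, A)

theorem omv_sum42 {q m g t₁ t : ℕ} {κ : ℝ} {wm : ℕ → ℕ → ℝ} (hq : 2 ≤ q) (hm : 1 ≤ m)
    (hg : 1 ≤ g) (ht : t₁ + g ≤ t) (hκ : 0 ≤ κ) (hw : MK q m κ wm) :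
    ∑ V ∈ range (q ^ t), ∑ A ∈ range (q ^ t), omv q m g t₁ wm t V A ≤ ((q ^ t : ℕ) : ℝ) ^ 2 := by
  have h := (ker q m g t₁ t κ wm hq hm hg ht hκ hw).2.1
  have h1 : ∀ V ∈ range (q ^ t), ∑ A ∈ range (q ^ t), omv q m g t₁ wm t V A = (q : ℝ) ^ t :=
    fun V _ => h V
  rw [Finset.sum_congr rfl h1, Finset.sum_const, Finset.card_range, nsmul_eq_mul]
  push_cast
  exact le_of_eq (by ring)

theorem kk_nonneg42 : 0 ≤ kk := by unfold kk; norm_num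

open Classical in
theorem gce (hB : GBDStmt) (hP : GLPStmt) : GCEStmt := by
  intro q m g t₁ l k p u₁ hm K₀ J wm d d' hpar hl hJ hd hd' hgood u hu b hb κ hκ
  have hT : 0 < q ^ tt q (l * k) J := Nat.pos_of_ne_zero (by have := hpar.hq; positivity)
  have hK : 0 < q ^ tt q (l * k) J * 2 ^ l := by positivity
  have hQ : 2 ≤ q ^ l := by
    calc 2 = 2 ^ 1 := rfl
      _ ≤ 2 ^ l := Nat.pow_le_pow_right (by norm_num) hl
      _ ≤ q ^ l := Nat.pow_le_pow_left hpar.hq l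
  have hF := hgood u hu b hb κ hκ
  set T := q ^ tt q (l * k) J with hTd
  set B : Finset (ℕ × ℕ) := (range (T * 2 ^ l) ×ˢ range (T * 2 ^ l)).filter fun s =>
    ∃ x1 x2 : ℝ, ix (T * 2 ^ l) x1 = s.1 ∧ ix (T * 2 ^ l) x2 = s.2 ∧
      3 * d' < Gt q m g t₁ l k wm J u κ (yy p (J - l * u) / (p : ℝ) ^ b) x1 x2 with hBd
  refine ⟨B, Finset.filter_subset _ _, ?_, ?_⟩
  · have h := hB l (l * k) (l * u) T (q ^ l) (pw l k) (omv q m g t₁ wm (tt q (l * k) J)) κ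
      (yy q (J - l * k)) (yy p (J - l * u) / (p : ℝ) ^ b) d' hT hQ hd'
      ((hP l hpar.marg k).1)
      (omv_nonneg42 hpar.hq hpar.hm hpar.hg (hpar.ht J hJ) kk_nonneg42 hpar.hmk)
      (omv_sum42 hpar.hq hpar.hm hpar.hg (hpar.ht J hJ) kk_nonneg42 hpar.hmk) B
      (Finset.filter_subset _ _) (fun s' hs' => (mem_filter.mp hs').2)
    have hK' : (0 : ℝ) < ((T * 2 ^ l : ℕ) : ℝ) ^ 2 := by positivity
    rw [div_le_iff₀ hK', mul_comm]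
    refine h.trans ?_
    have hcast : ((T : ℝ) * 2 ^ l) ^ 2 = ((T * 2 ^ l : ℕ) : ℝ) ^ 2 := by push_cast; ring
    rw [hcast]
    refine mul_le_mul_of_nonneg_left ?_ hK'.le
    have hc4 : (1 : ℝ) ≤ c4 ^ 2 := by
      have h1 : (1 : ℝ) ≤ c4 := by
        unfold c4
        have h3 := Real.pi_gt_three
        have h4 : (1 : ℝ) ≤ Real.pi ^ 2 / 4 := by nlinarith
        nlinarith
      nlinarith
    have h5 : F4f (l * k) (l * u) (pw l k) T (q ^ l) (omv q m g t₁ wm (tt q (l * k) J)) κ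
        (yy q (J - l * k)) (yy p (J - l * u) / (p : ℝ) ^ b) / (c4 ^ 2 * d' ^ 2) ≤ d / d' ^ 2 := by
      have h6 : (0 : ℝ) < d' ^ 2 := by positivity
      rw [div_le_div_iff₀ (by positivity) h6]
      calc _ ≤ d * d' ^ 2 := mul_le_mul_of_nonneg_right hF h6.le
        _ = d * (1 * d' ^ 2) := by ring
        _ ≤ d * (c4 ^ 2 * d' ^ 2) := by gcongr
    have h7 : ((q ^ l : ℕ) : ℝ) = (q : ℝ) ^ l := by push_cast; ring
    rw [h7]
    gcongr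
  · intro s₁ s₂ hs
    by_contra hcon
    refine hs (mem_filter.mpr ⟨mem_product.mpr ⟨mem_range.mpr (ix_lt42 hK s₁),
      mem_range.mpr (ix_lt42 hK s₂)⟩, s₁, s₂, rfl, rfl, not_le.mp hcon⟩)

end Pool.Agent.H24.FD
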