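import Pool.Agent.H42.FD.KER

/-!
# MP_1f2761, `k = 2`: the row KEF (the first part of the block kernel)
-/

set_option autoImplicit false

namespace Pool.Agent.H24.FD

open Finset G42

/-- number of factors of `omF` -/
def nf42 (m g t₁ t tu : ℕ) : ℕ := min ((tu - t₁ - 1) / m) (nb m g t₁ t)

theorem omF_G (q m g t₁ : ℕ) (wm : ℕ → ℕ → ℝ) (t tu : ℕ) (c : ℕ × ℕ) :
    omF q m g t₁ wm t tu c =
      G q m wm (fun _ => 1) (tu - t₁) (nf42 m g t₁ t tu) c.1 c.2 := by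
  unfold omF G nf42
  rw [mul_one]

theorem nf_le (m g t₁ t tu : ℕ) : nf42 m g t₁ t tu * m ≤ tu - t₁ - 1 :=
  (Nat.mul_le_mul_right m (min_le_left _ _)).trans (Nat.div_mul_le_self _ _)

/-- The number of the remaining macro-digits. -/
theorem rest_le {m g t₁ t tu : ℕ} (hm : 1 ≤ m) (ht : t₁ + g ≤ t) (htu : tu ≤ t) :
    (nb m g t₁ t - nf42 m g t₁ t tu) * m ≤ t - tu + m := by
  have hn := nb_le m g t₁ t ht
  rcases le_total (nb m g t₁ t) ((tu - t₁ - 1) / m) with h | h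
  · have h1 : nf42 m g t₁ t tu = nb m g t₁ t := min_eq_right h
    rw [h1, Nat.sub_self, zero_mul]
    exact Nat.zero_le _
  · have h1 : nf42 m g t₁ t tu = (tu - t₁ - 1) / m := min_eq_left h
    rw [h1, Nat.sub_mul]
    have h2 : tu - t₁ - 1 < (tu - t₁ - 1) / m * m + m := Nat.lt_div_mul_add hm
    omega

theorem split_le {q m g t₁ t tu : ℕ} {κ : ℝ} {wm : ℕ → ℕ → ℝ} (hq : 2 ≤ q) (hm : 1 ≤ m)
    (hg : 1 ≤ g) (ht : t₁ + g ≤ t) (htu : tu ≤ t) (hκ : 0 ≤ κ) (hw : MK q m κ wm) (z : ℕ × ℕ) :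
    omK q m g t₁ wm t z ≤ 2 * (q : ℝ) ^ (κ * (t - tu + m)) *
      omF q m g t₁ wm t tu (z.1 / q ^ (t - tu), z.2 / q ^ (t - tu)) := by
  have hφ := lo_gd hq hg
  have hq1 : 1 ≤ q := by omega
  have hq1' : (1 : ℝ) ≤ q := by exact_mod_cast hq1
  have hq0 : (0 : ℝ) < q := by linarith
  have hnf := nf_le m g t₁ t tu
  have hle : nf42 m g t₁ t tu ≤ nb m g t₁ t := min_le_right _ _
  have hrest := rest_le (g := g) hm ht htu
  have e1 : omF q m g t₁ wm t tu (z.1 / q ^ (t - tu), z.2 / q ^ (t - tu)) =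
      ∏ i ∈ range (nf42 m g t₁ t tu), wm (z.1 / q ^ (t - t₁ - (i + 1) * m) % q ^ m)
        (z.2 / q ^ (t - t₁ - (i + 1) * m) % q ^ m) := by
    unfold omF
    refine Finset.prod_congr rfl fun i hi => ?_
    have hi' : i < nf42 m g t₁ t tu := mem_range.mp hi
    have h1 : (i + 1) * m ≤ nf42 m g t₁ t tu * m := Nat.mul_le_mul_right m hi'
    have h2 : 0 < (i + 1) * m := by positivity
    have h3 : q ^ (t - t₁ - (i + 1) * m) = q ^ (t - tu) * q ^ (tu - t₁ - (i + 1) * m) := by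
      rw [← pow_add]
      congr 1
      omega
    rw [h3, ← Nat.div_div_eq_div_mul, ← Nat.div_div_eq_div_mul]
  have e2 : omK q m g t₁ wm t z =
      (∏ i ∈ range (nf42 m g t₁ t tu), wm (z.1 / q ^ (t - t₁ - (i + 1) * m) % q ^ m)
        (z.2 / q ^ (t - t₁ - (i + 1) * m) % q ^ m)) *
      (∏ i ∈ Ico (nf42 m g t₁ t tu) (nb m g t₁ t),
        wm (z.1 / q ^ (t - t₁ - (i + 1) * m) % q ^ m)
          (z.2 / q ^ (t - t₁ - (i + 1) * m) % q ^ m)) * gd q g z.2 := by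
    rw [Finset.prod_range_mul_prod_Ico _ hle]
    rfl
  have h1 : ∏ i ∈ Ico (nf42 m g t₁ t tu) (nb m g t₁ t),
      wm (z.1 / q ^ (t - t₁ - (i + 1) * m) % q ^ m)
        (z.2 / q ^ (t - t₁ - (i + 1) * m) % q ^ m) ≤ (q : ℝ) ^ (κ * (t - tu + m)) := by
    refine (Finset.prod_le_prod (fun _ _ => hw.nonneg _ _) fun i _ => hw.le _ _).trans ?_
    rw [Finset.prod_const, Nat.card_Ico, ← Real.rpow_natCast, ← Real.rpow_mul hq0.le]
    refine Real.rpow_le_rpow_of_exponent_le hq1' ?_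
    rw [mul_assoc]
    refine mul_le_mul_of_nonneg_left ?_ hκ
    have h2 : ((nb m g t₁ t - nf42 m g t₁ t tu : ℕ) : ℝ) * m ≤ ((t - tu : ℕ) : ℝ) + m := by
      exact_mod_cast hrest
    rw [Nat.cast_sub htu] at h2
    rw [mul_comm (m : ℝ)]
    exact h2
  have h0 : 0 ≤ ∏ i ∈ range (nf42 m g t₁ t tu), wm (z.1 / q ^ (t - t₁ - (i + 1) * m) % q ^ m)
      (z.2 / q ^ (t - t₁ - (i + 1) * m) % q ^ m) := Finset.prod_nonneg fun _ _ => hw.nonneg _ _
  have h0' : 0 ≤ (q : ℝ) ^ (κ * (t - tu + m)) := Real.rpow_nonneg hq0.le _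
  rw [e1, e2]
  calc _ ≤ (∏ i ∈ range (nf42 m g t₁ t tu), wm (z.1 / q ^ (t - t₁ - (i + 1) * m) % q ^ m)
        (z.2 / q ^ (t - t₁ - (i + 1) * m) % q ^ m)) * (q : ℝ) ^ (κ * (t - tu + m)) * 2 :=
      mul_le_mul (mul_le_mul_of_nonneg_left h1 h0) (hφ.le _) (hφ.nonneg _) (mul_nonneg h0 h0')
    _ = _ := by ring

theorem kef : KEFStmt := by
  intro q m g t₁ t tu κ wm hq hm hg ht htu hκ hw
  have hφ := lo_one q
  have hq1 : 1 ≤ q := by omega
  have hq1' : (1 : ℝ) ≤ q := by exact_mod_cast hq1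
  have hnf := nf_le m g t₁ t tu
  have hn : 0 + nf42 m g t₁ t tu * m ≤ tu - t₁ := by omega
  have hbig : ∀ V, ∀ j, tu - t₁ ≤ j → ∀ b, ∑ A ∈ range (q ^ j),
      omF q m g t₁ wm t tu (V, b * q ^ j + A) = (q : ℝ) ^ j := by
    intro V j hj b
    simp only [omF_G]
    exact sum_big hq1 hw hφ hn hj V b
  refine ⟨?_, ?_, ?_, ?_, ?_, ?_⟩
  · intro c
    rw [omF_G]
    exact g_nonneg hw hφ _ _ _ _
  · exact split_le hq hm hg ht htu hκ hw
  · intro V i hi b _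
    rcases le_or_gt (tu - t₁) (tu - i) with h | h
    · rw [hbig V (tu - i) h b]
      have h1 : (1 : ℝ) ≤ (q : ℝ) ^ (κ * (i + m)) :=
        Real.one_le_rpow hq1' (mul_nonneg hκ (by positivity))
      have h2 : (0 : ℝ) ≤ (q : ℝ) ^ (tu - i) := by positivity
      nlinarith [mul_nonneg (sub_nonneg.mpr h1) h2]
    · simp only [omF_G]
      refine (sum_part hq1 hκ hw hφ _ _ hn (tu - i) h.le V b).trans ?_
      have h1 : ((tu - t₁ : ℕ) : ℝ) - (tu - i : ℕ) + m ≤ i + m := by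
        rw [Nat.cast_sub (by omega), Nat.cast_sub hi]
        have : (0 : ℝ) ≤ t₁ := Nat.cast_nonneg t₁
        linarith
      have h2 : (q : ℝ) ^ (κ * (((tu - t₁ : ℕ) : ℝ) - (tu - i : ℕ) + m)) ≤
          (q : ℝ) ^ (κ * (i + m)) :=
        Real.rpow_le_rpow_of_exponent_le hq1' (mul_le_mul_of_nonneg_left h1 hκ)
      have h3 : (0 : ℝ) ≤ (q : ℝ) ^ (tu - i) := by positivity
      rw [one_mul]
      gcongr
  · intro V
    have h := hbig V tu (by omega) 0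
    simpa using h
  · intro _ z
    rw [omF_G, omF_G]
    exact (g_per hφ hn le_rfl _ _).symm
  · intro h z
    have h1 : tu - t₁ - 1 = 0 := by omega
    unfold omF
    rw [h1, Nat.zero_div, Nat.zero_min, Finset.prod_range_zero]

end Pool.Agent.H24.FD
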