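import Pool.Agent.H42.FD.ONQc
import Pool.Agent.H63.FD.EQB
import Pool.Agent.H78.FD.SPL

/-!
# MP_1f2761, `k = 2`: the row ONQ (one structured block, own base)
-/

set_option autoImplicit false

open Finset Pool.K2 Pool.FD MeasureTheory

namespace Pool.Agent.H24.FD

open O42

open Classical in
theorem onq (hV : VALSStmt) (hP : PIMStmt) (hN : PINStmt) (hL : LORStmt) (hU : UNIStmt)
    (hD : DIGStmt) : ONQStmt := by
  intro q m g t₁ l k G Jt J wm xq εk hpar hJ hG hε hεx hx hS x
  have hq := hpar.hq
  have ht := hpar.ht J hJ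
  have hJ' : J - l * k + l * k = J := Nat.sub_add_cancel hJ
  set om := omW q m g t₁ wm (l * k) G Jt with homd
  have homW : ∀ z, om J z = omK q m g t₁ wm (tt q (l * k) J) z := by
    intro z
    rw [homd]
    unfold omW
    rw [if_neg (by omega)]
  have homW0 : ∀ J z, 0 ≤ om J z := by
    intro J z
    rw [homd]
    unfold omW
    split_ifs
    · exact zero_le_one
    · unfold omK
      exact mul_nonneg (Finset.prod_nonneg fun _ _ => hpar.hmk.nonneg _ _)
        ((G42.lo_gd hq hpar.hg).nonneg _)
  have hEQ : EQ q l k eb om J 1 (fun y => (bad q (l * k) (J - l * k) y : ℝ)) x =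
      ∑ S : Fin k → Fin l → Fin 3, piQ q l k eb om J x S *
        (bad q (l * k) (J - l * k) (app x S) : ℝ) := rfl
  have ht0 : (0 : ℝ) ≤ tt q (l * k) J := Nat.cast_nonneg _
  have hpt : ∀ S : Fin k → Fin l → Fin 3, piQ q l k eb om J x S *
      (bad q (l * k) (J - l * k) (app x S) : ℝ) ≤
        piQ q l k eb om J x S * FV q m g t₁ (tt q (l * k) J) wm xq εk
          (Vd q (l * k) J x.1 (VN S)) +
        tt q (l * k) J * (if (∀ i, typN eb (S i)) ∧ ¬ keep q l k eb om J x S then
          piQ q l k eb om J x S else 0) +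
        tt q (l * k) J * (if (∀ i, typN eb (S i)) then 0 else PF eb S) := by
    intro S
    have hp0 := hN q l k eb om homW0 J x S
    have hF0 := FV_nonneg (q := q) (m := m) (g := g) (t₁ := t₁) (t := tt q (l * k) J) (wm := wm)
      hx hε (Vd q (l * k) J x.1 (VN S))
    have hbt : (bad q (l * k) (J - l * k) (app x S) : ℝ) ≤ tt q (l * k) J := by
      have h := bad_triv (w := l * k) (J' := J - l * k) hq (app x S)
      rw [hJ'] at h
      exact_mod_cast h
    have hPF := SPL78.PF_nonneg eb S
    by_cases htyp : ∀ i, typN eb (S i)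
    · rw [if_pos htyp, mul_zero, add_zero]
      by_cases hk : keep q l k eb om J x S
      · rw [if_neg (fun h => h.2 hk), mul_zero, add_zero]
        by_cases hz : om J (zz q (l * k) J (app x S)) = 0
        · have h0 : piQ q l k eb om J x S = 0 := by
            unfold piQ
            rw [if_pos hk, hz, mul_zero, zero_div]
          rw [h0, zero_mul, zero_mul]
        · refine mul_le_mul_of_nonneg_left ?_ hp0
          rw [homW] at hz
          have h1 : tt q (l * k) J = tt q (l * k) (J - l * k + l * k) := by rw [hJ']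
          exact bad_real hD hq hpar.hm hpar.hg hx hε (by rw [hJ']; exact ht) (app x S) h1
            rfl rfl hz
      · rw [if_pos ⟨htyp, hk⟩]
        have h1 := mul_le_mul_of_nonneg_left hbt hp0
        have h2 := mul_nonneg hp0 hF0
        linarith
    · rw [if_neg htyp, if_neg (fun h => htyp h.1), mul_zero, add_zero]
      have hk : ¬ keep q l k eb om J x S := fun h => htyp h.1
      have h0 : piQ q l k eb om J x S = PF eb S := by
        unfold piQ
        rw [if_neg hk]
      rw [h0]
      have h1 := mul_le_mul_of_nonneg_left hbt hPF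
      have h2 := mul_nonneg hPF hF0
      linarith
  rw [hEQ]
  refine (sum_le_sum fun S _ => hpt S).trans ?_
  rw [sum_add_distrib, sum_add_distrib, ← mul_sum, ← mul_sum,
    Eqb63.sum_fun hV hP hpar.marg J x
      (fun η => FV q m g t₁ (tt q (l * k) J) wm xq εk (Vd q (l * k) J x.1 η)),
    hL q m g t₁ l k G Jt J wm hpar hJ hG x]
  have h1 := avg_FV (wm := wm) (xq := xq) hU hq hJ hε ht hS x.1
  have h2 := mul_le_mul_of_nonneg_left (SPL78.union_bound (k := k) hV hpar.marg) ht0
  have hm0 : (0 : ℝ) ≤ m := Nat.cast_nonneg m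
  nlinarith [h1, h2, hm0]

end Pool.Agent.H24.FD
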