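import Pool.Agent.H24.FD.P2

/-!
# MP_1f2761, `k = 2`: products of macro kernels (for the rows KER and KEF)
-/

set_option autoImplicit false

namespace Pool.Agent.H24.FD.G42

open Finset

theorem sum_cells (Q R : ℕ) (f : ℕ → ℝ) :
    ∑ z ∈ range (Q * R), f z = ∑ a ∈ range Q, ∑ y ∈ range R, f (a * R + y) := by
  induction Q with
  | zero => simp
  | succ Q ih => rw [Nat.succ_mul, Finset.sum_range_add, ih, Finset.sum_range_succ]

/-- A product of `n` macro kernels from the top of `s` digits, times a function of the low digits. -/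
noncomputable def G (q m : ℕ) (wm : ℕ → ℕ → ℝ) (φ : ℕ → ℝ) (s n V A : ℕ) : ℝ :=
  (∏ i ∈ range n, wm (V / q ^ (s - (i + 1) * m) % q ^ m) (A / q ^ (s - (i + 1) * m) % q ^ m)) * φ A

/-- The function of the low digits. -/
structure Lo (q g : ℕ) (Φ : ℝ) (φ : ℕ → ℝ) : Prop where
  per : ∀ A, φ (A % q ^ g) = φ A
  nonneg : ∀ A, 0 ≤ φ A
  le : ∀ A, φ A ≤ Φ
  one : 1 ≤ Φ
  avg : ∑ A ∈ range (q ^ g), φ A = (q : ℝ) ^ g

section

variable {q m g : ℕ} {κ Φ : ℝ} {wm : ℕ → ℕ → ℝ} {φ : ℕ → ℝ}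

theorem g_succ (s n V A : ℕ) :
    G q m wm φ s (n + 1) V A =
      wm (V / q ^ (s - m) % q ^ m) (A / q ^ (s - m) % q ^ m) * G q m wm φ (s - m) n V A := by
  unfold G
  rw [Finset.prod_range_succ']
  have h1 : ∀ i ∈ range n, wm (V / q ^ (s - (i + 1 + 1) * m) % q ^ m)
      (A / q ^ (s - (i + 1 + 1) * m) % q ^ m) = wm (V / q ^ (s - m - (i + 1) * m) % q ^ m)
        (A / q ^ (s - m - (i + 1) * m) % q ^ m) := by
    intro i _
    have : s - (i + 1 + 1) * m = s - m - (i + 1) * m := by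
      rw [Nat.sub_sub]
      congr 1
      ring
    rw [this]
  rw [Finset.prod_congr rfl h1]
  have h2 : s - (0 + 1) * m = s - m := by rw [zero_add, one_mul]
  rw [h2]
  ring

theorem g_nonneg (hw : MK q m κ wm) (hφ : Lo q g Φ φ) (s n V A : ℕ) : 0 ≤ G q m wm φ s n V A :=
  mul_nonneg (Finset.prod_nonneg fun _ _ => hw.nonneg _ _) (hφ.nonneg _)

theorem mod_div_mod {e s : ℕ} (h : e + m ≤ s) (A : ℕ) :
    A % q ^ s / q ^ e % q ^ m = A / q ^ e % q ^ m := by
  have h1 : q ^ s = q ^ e * q ^ (s - e) := by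
    rw [← pow_add]
    congr 1
    omega
  rw [h1, Nat.mod_mul_right_div_self]
  exact Nat.mod_mod_of_dvd _ (pow_dvd_pow q (by omega))

theorem g_per (hφ : Lo q g Φ φ) {s n s' : ℕ} (h : g + n * m ≤ s) (hs : s ≤ s') (V A : ℕ) :
    G q m wm φ s n (V % q ^ s') (A % q ^ s') = G q m wm φ s n V A := by
  unfold G
  congr 1
  · refine Finset.prod_congr rfl fun i hi => ?_
    rw [mem_range] at hi
    have h1 : (i + 1) * m ≤ n * m := Nat.mul_le_mul_right m hi
    have h2 : (i + 1) * m = i * m + m := by ring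
    rw [mod_div_mod (by omega), mod_div_mod (by omega)]
  · rw [← hφ.per, Nat.mod_mod_of_dvd _ (pow_dvd_pow q (by omega)), hφ.per]

theorem g_perA (hφ : Lo q g Φ φ) {s n s' : ℕ} (h : g + n * m ≤ s) (hs : s ≤ s') (V A : ℕ) :
    G q m wm φ s n V (A % q ^ s') = G q m wm φ s n V A := by
  rw [← g_per hφ h hs V (A % q ^ s'), Nat.mod_mod, g_per hφ h hs]

theorem g_add (hφ : Lo q g Φ φ) {s n s' : ℕ} (h : g + n * m ≤ s) (hs : s ≤ s') (V A B : ℕ) :
    G q m wm φ s n V (B * q ^ s' + A) = G q m wm φ s n V A := by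
  rw [← g_perA hφ h hs V (B * q ^ s' + A), ← g_perA hφ h hs V A]
  congr 1
  rw [Nat.add_comm, Nat.add_mul_mod_self_right]

theorem sum_full (hq : 1 ≤ q) (hw : MK q m κ wm) (hφ : Lo q g Φ φ) (n : ℕ) :
    ∀ s, g + n * m ≤ s → ∀ V, ∑ A ∈ range (q ^ s), G q m wm φ s n V A = (q : ℝ) ^ s := by
  induction n with
  | zero =>
    intro s hs V
    have e : q ^ s = q ^ (s - g) * q ^ g := by
      rw [← pow_add]
      congr 1
      omega
    rw [e, sum_cells]
    have h1 : ∀ a ∈ range (q ^ (s - g)), ∑ y ∈ range (q ^ g), G q m wm φ s 0 V (a * q ^ g + y) =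
        (q : ℝ) ^ g := by
      intro a _
      rw [← hφ.avg]
      refine Finset.sum_congr rfl fun y hy => ?_
      unfold G
      rw [Finset.prod_range_zero, one_mul, ← hφ.per, Nat.add_comm, Nat.add_mul_mod_self_right,
        Nat.mod_eq_of_lt (mem_range.mp hy)]
    rw [Finset.sum_congr rfl h1, Finset.sum_const, Finset.card_range, nsmul_eq_mul]
    push_cast
    rw [← pow_add]
    congr 1
    omega
  | succ n ih =>
    intro s hs V
    have h2 : (n + 1) * m = n * m + m := by ring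
    have e : q ^ s = q ^ m * q ^ (s - m) := by
      rw [← pow_add]
      congr 1
      omega
    rw [e, sum_cells]
    have hq0 : 0 < q ^ (s - m) := Nat.pos_of_ne_zero (by positivity)
    have h1 : ∀ a ∈ range (q ^ m), ∑ y ∈ range (q ^ (s - m)),
        G q m wm φ s (n + 1) V (a * q ^ (s - m) + y) =
          wm (V / q ^ (s - m) % q ^ m) a * (q : ℝ) ^ (s - m) := by
      intro a ha
      rw [← ih (s - m) (by omega) V, Finset.mul_sum]
      refine Finset.sum_congr rfl fun y hy => ?_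
      rw [mem_range] at ha hy
      rw [g_succ, g_add hφ (by omega) le_rfl]
      congr 2
      rw [Nat.add_comm, Nat.add_mul_div_right _ _ hq0, Nat.div_eq_of_lt hy, zero_add,
        Nat.mod_eq_of_lt ha]
    rw [Finset.sum_congr rfl h1, ← Finset.sum_mul,
      hw.sum_one _ (Nat.mod_lt _ (Nat.pos_of_ne_zero (by positivity))), ← pow_add]
    congr 1
    omega

theorem sum_big (hq : 1 ≤ q) (hw : MK q m κ wm) (hφ : Lo q g Φ φ) {s n j : ℕ}
    (h : g + n * m ≤ s) (hj : s ≤ j) (V B : ℕ) :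
    ∑ A ∈ range (q ^ j), G q m wm φ s n V (B * q ^ j + A) = (q : ℝ) ^ j := by
  have e : q ^ j = q ^ (j - s) * q ^ s := by
    rw [← pow_add]
    congr 1
    omega
  have h1 : ∀ A ∈ range (q ^ j), G q m wm φ s n V (B * q ^ j + A) = G q m wm φ s n V A :=
    fun A _ => g_add hφ h hj V A B
  rw [Finset.sum_congr rfl h1, e, sum_cells]
  have h2 : ∀ a ∈ range (q ^ (j - s)), ∑ y ∈ range (q ^ s), G q m wm φ s n V (a * q ^ s + y) =
      (q : ℝ) ^ s := by
    intro a _
    rw [← sum_full hq hw hφ n s h V]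
    exact Finset.sum_congr rfl fun y _ => g_add hφ h le_rfl V y a
  rw [Finset.sum_congr rfl h2, Finset.sum_const, Finset.card_range, nsmul_eq_mul]
  push_cast
  rw [← pow_add]
  congr 1
  omega

theorem sum_part (hq : 1 ≤ q) (hκ : 0 ≤ κ) (hw : MK q m κ wm) (hφ : Lo q g Φ φ) (n : ℕ) :
    ∀ s, g + n * m ≤ s → ∀ j ≤ s, ∀ V B : ℕ,
      ∑ A ∈ range (q ^ j), G q m wm φ s n V (B * q ^ j + A) ≤
        Φ * (q : ℝ) ^ (κ * ((s : ℝ) - j + m)) * (q : ℝ) ^ j := by
  have hq1 : (1 : ℝ) ≤ q := by exact_mod_cast hq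
  have hq0 : (0 : ℝ) < q := by linarith
  have hΦ : 0 ≤ Φ := zero_le_one.trans hφ.one
  induction n with
  | zero =>
    intro s hs j hj V B
    have h1 : ∑ A ∈ range (q ^ j), G q m wm φ s 0 V (B * q ^ j + A) ≤ Φ * (q : ℝ) ^ j := by
      have h2 : ∀ A ∈ range (q ^ j), G q m wm φ s 0 V (B * q ^ j + A) ≤ Φ := by
        intro A _
        unfold G
        rw [Finset.prod_range_zero, one_mul]
        exact hφ.le _
      refine (Finset.sum_le_sum h2).trans (le_of_eq ?_)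
      rw [Finset.sum_const, Finset.card_range, nsmul_eq_mul]
      push_cast
      ring
    refine h1.trans ?_
    have h3 : (1 : ℝ) ≤ (q : ℝ) ^ (κ * ((s : ℝ) - j + m)) := by
      refine Real.one_le_rpow hq1 (mul_nonneg hκ ?_)
      have : (j : ℝ) ≤ s := by exact_mod_cast hj
      have : (0 : ℝ) ≤ m := Nat.cast_nonneg m
      linarith
    calc Φ * (q : ℝ) ^ j = Φ * 1 * (q : ℝ) ^ j := by ring
      _ ≤ _ := by gcongr
  | succ n ih =>
    intro s hs j hj V B
    have h2 : (n + 1) * m = n * m + m := by ring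
    have hms : m ≤ s := by omega
    have hwm : wm (V / q ^ (s - m) % q ^ m) 0 ≤ (q : ℝ) ^ (κ * m) := hw.le _ _
    have hK0 : (0 : ℝ) ≤ (q : ℝ) ^ (κ * m) := Real.rpow_nonneg hq0.le _
    have h3 : ∑ A ∈ range (q ^ j), G q m wm φ s (n + 1) V (B * q ^ j + A) ≤
        (q : ℝ) ^ (κ * m) * ∑ A ∈ range (q ^ j), G q m wm φ (s - m) n V (B * q ^ j + A) := by
      rw [Finset.mul_sum]
      refine Finset.sum_le_sum fun A _ => ?_
      rw [g_succ]
      exact mul_le_mul_of_nonneg_right (hw.le _ _) (g_nonneg hw hφ _ _ _ _)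
    refine h3.trans ?_
    rcases le_or_gt j (s - m) with h | h
    · have h4 := ih (s - m) (by omega) j h V B
      have h5 : (q : ℝ) ^ (κ * m) * (q : ℝ) ^ (κ * (((s - m : ℕ) : ℝ) - j + m)) =
          (q : ℝ) ^ (κ * ((s : ℝ) - j + m)) := by
        rw [← Real.rpow_add hq0, Nat.cast_sub hms]
        congr 1
        ring
      calc _ ≤ (q : ℝ) ^ (κ * m) * (Φ * (q : ℝ) ^ (κ * (((s - m : ℕ) : ℝ) - j + m)) *
            (q : ℝ) ^ j) := mul_le_mul_of_nonneg_left h4 hK0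
        _ = _ := by rw [← h5]; ring
    · rw [sum_big hq hw hφ (by omega) h.le V B]
      have h5 : (q : ℝ) ^ (κ * m) ≤ (q : ℝ) ^ (κ * ((s : ℝ) - j + m)) := by
        refine Real.rpow_le_rpow_of_exponent_le hq1 (mul_le_mul_of_nonneg_left ?_ hκ)
        have : (j : ℝ) ≤ s := by exact_mod_cast hj
        linarith
      have h6 : 0 ≤ (q : ℝ) ^ (κ * ((s : ℝ) - j + m)) := Real.rpow_nonneg hq0.le _
      calc (q : ℝ) ^ (κ * m) * (q : ℝ) ^ j ≤ (q : ℝ) ^ (κ * ((s : ℝ) - j + m)) * (q : ℝ) ^ j := by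
            gcongr
        _ = 1 * (q : ℝ) ^ (κ * ((s : ℝ) - j + m)) * (q : ℝ) ^ j := by ring
        _ ≤ _ := by
            have := hφ.one
            gcongr

/-- The pointwise bound. -/
theorem g_le (hq : 1 ≤ q) (hw : MK q m κ wm) (hφ : Lo q g Φ φ) (s n V A : ℕ) :
    G q m wm φ s n V A ≤ Φ * (q : ℝ) ^ (κ * (n * m)) := by
  have hq0 : (0 : ℝ) < q := by exact_mod_cast hq
  have h1 : ∏ i ∈ range n, wm (V / q ^ (s - (i + 1) * m) % q ^ m)
      (A / q ^ (s - (i + 1) * m) % q ^ m) ≤ (q : ℝ) ^ (κ * (n * m)) := by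
    refine (Finset.prod_le_prod (fun _ _ => hw.nonneg _ _) fun i _ => hw.le _ _).trans
      (le_of_eq ?_)
    rw [Finset.prod_const, Finset.card_range, ← Real.rpow_natCast, ← Real.rpow_mul hq0.le]
    congr 1
    ring
  unfold G
  rw [mul_comm Φ]
  exact mul_le_mul h1 (hφ.le _) (hφ.nonneg _) (Real.rpow_nonneg hq0.le _)

end

/-! ### The two functions of the low digits -/

theorem lo_one (q : ℕ) : Lo q 0 1 (fun _ => 1) where
  per := fun _ => rfl
  nonneg := fun _ => zero_le_one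
  le := fun _ => le_rfl
  one := le_rfl
  avg := by simp

theorem lo_gd {q g : ℕ} (hq : 2 ≤ q) (hg : 1 ≤ g) : Lo q g 2 (gd q g) := by
  have hq2 : (2 : ℝ) ≤ q := by exact_mod_cast hq
  have hqg : (2 : ℝ) ≤ (q : ℝ) ^ g := by
    calc (2 : ℝ) ≤ q := hq2
      _ = (q : ℝ) ^ 1 := (pow_one _).symm
      _ ≤ (q : ℝ) ^ g := pow_le_pow_right₀ (by linarith) hg
  have hinv : 1 / (q : ℝ) ^ g ≤ 1 / 2 := one_div_le_one_div_of_le (by norm_num) hqg
  have hpos : 0 < 1 - 1 / (q : ℝ) ^ g := by linarith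
  have hle : 1 / (1 - 1 / (q : ℝ) ^ g) ≤ 2 := by
    rw [div_le_iff₀ hpos]
    linarith
  have hqg' : 1 ≤ q ^ g := Nat.one_le_pow _ _ (by omega)
  refine ⟨?_, ?_, ?_, by norm_num, ?_⟩
  · intro A
    unfold gd
    rw [Nat.mod_mod]
  · intro A
    unfold gd
    split_ifs
    · exact le_rfl
    · positivity
  · intro A
    unfold gd
    split_ifs
    · norm_num
    · exact hle
  · have h1 : ∑ A ∈ range (q ^ g), gd q g A =
        ∑ A ∈ range (q ^ g), (if A = q ^ g - 1 then 0 else 1 / (1 - 1 / (q : ℝ) ^ g)) := by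
      refine Finset.sum_congr rfl fun A hA => ?_
      unfold gd
      rw [Nat.mod_eq_of_lt (mem_range.mp hA)]
    obtain ⟨r, hr⟩ : ∃ r, q ^ g = r + 1 := ⟨q ^ g - 1, by omega⟩
    have hrr : (q : ℝ) ^ g = r + 1 := by exact_mod_cast congrArg (fun n : ℕ => (n : ℝ)) hr
    rw [h1, hr, Nat.add_sub_cancel, Finset.sum_range_succ, if_pos rfl, add_zero]
    have h2 : ∀ A ∈ range r, (if A = r then (0 : ℝ) else 1 / (1 - 1 / (q : ℝ) ^ g)) =
        1 / (1 - 1 / (q : ℝ) ^ g) := by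
      intro A hA
      rw [mem_range] at hA
      rw [if_neg (by omega)]
    rw [Finset.sum_congr rfl h2, Finset.sum_const, Finset.card_range, nsmul_eq_mul]
    have hr0 : (r : ℝ) + 1 ≠ 0 := by positivity
    have hr1 : (r : ℝ) ≠ 0 := by
      rw [hrr] at hqg
      intro h
      rw [h] at hqg
      norm_num at hqg
    rw [hrr] at hpos ⊢
    have h3 : (1 : ℝ) - 1 / (r + 1) = r / (r + 1) := by
      field_simp
      ring
    rw [h3]
    field_simp

end Pool.Agent.H24.FD.G42
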