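import Pool.Agent.H24.FD.P4
import Pool.Agent.H42.FD.KER

/-!
# MP_1f2761, `k = 2`: the row ONQ, part 1 (levels of a block in its own base)
-/

set_option autoImplicit false

open Finset Pool.K2 Pool.FD MeasureTheory

namespace Pool.Agent.H24.FD.O42

/-- offset of the macro-digit `i` -/
def oo (m t₁ t i : ℕ) : ℕ := t - t₁ - (i + 1) * m

/-- number of levels decided inside the macro-digit `i` -/
def cc (q m g t₁ t V A i : ℕ) : ℕ :=
  if V % q ^ g = q ^ g - 1 then 0
  else ncar q m (V / q ^ oo m t₁ t i % q ^ m) (A / q ^ oo m t₁ t i % q ^ m)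

open Classical in
/-- The set of the undecided levels. -/
noncomputable def Bd (q w J' : ℕ) (x' : ℕ × ℕ) : Finset ℕ :=
  (range (J' + w + 1)).filter fun m => 2 ^ J' ≤ q ^ m ∧ q ^ m < 2 ^ (J' + w) ∧ ¬ Sure q m J' x'

theorem bad_eq (q w J' : ℕ) (x' : ℕ × ℕ) : bad q w J' x' = (Bd q w J' x').card := rfl

theorem mem_Bd {q w J' : ℕ} (hq : 2 ≤ q) {x' : ℕ × ℕ} {lv : ℕ} (h : lv ∈ Bd q w J' x') :
    II q J' ≤ lv ∧ lv < II q J' + tt q w (J' + w) ∧ ¬ Sure q lv J' x' := by
  classical
  unfold Bd at h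
  rw [mem_filter] at h
  obtain ⟨_, h1, h2, h3⟩ := h
  have h4 : II q J' ≤ lv := by
    unfold II
    exact (Nat.clog_le_iff_le_pow (by omega)).mpr h1
  have h5 : lv < II q (J' + w) := by
    by_contra hcon
    push Not at hcon
    unfold II at hcon
    have := (Nat.clog_le_iff_le_pow (by omega)).mp hcon
    omega
  refine ⟨h4, ?_, h3⟩
  unfold tt
  rw [Nat.add_sub_cancel]
  omega

theorem bad_triv {q w J' : ℕ} (hq : 2 ≤ q) (x' : ℕ × ℕ) : bad q w J' x' ≤ tt q w (J' + w) := by
  classical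
  rw [bad_eq]
  have h : Bd q w J' x' ⊆ (range (tt q w (J' + w))).image (fun r => II q J' + r) := by
    intro lv hlv
    obtain ⟨h1, h2, _⟩ := mem_Bd hq hlv
    refine mem_image.mpr ⟨lv - II q J', mem_range.mpr (by omega), by omega⟩
  refine (card_le_card h).trans (card_image_le.trans ?_)
  rw [card_range]

theorem bad_cover (hD : DIGStmt) {q m g t₁ w J' : ℕ} (hq : 2 ≤ q) (hm : 1 ≤ m) (hg : 1 ≤ g)
    (ht : t₁ + g ≤ tt q w (J' + w)) (x' : ℕ × ℕ) {V A t : ℕ} (htd : t = tt q w (J' + w))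
    (hV : V = x'.1 * 2 ^ J' / q ^ II q J' % q ^ t) (hA : A = x'.2 * 2 ^ J' / q ^ II q J' % q ^ t)
    (hA' : A % q ^ g ≠ q ^ g - 1) :
    bad q w J' x' ≤ t₁ + g + m + ∑ i ∈ range (nb m g t₁ t), (m - cc q m g t₁ t V A i) := by
  classical
  rw [bad_eq]
  rw [← htd] at ht
  have hn := nb_le m g t₁ t ht
  have hn2 : t - t₁ - g < nb m g t₁ t * m + m := Nat.lt_div_mul_add hm
  set n := nb m g t₁ t with hnd
  set D : ℕ → ℕ → Prop := fun i j => V % q ^ g ≠ q ^ g - 1 ∧
    (V / q ^ oo m t₁ t i % q ^ m) % q ^ j < (A / q ^ oo m t₁ t i % q ^ m) % q ^ j with hDd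
  have hsub : Bd q w J' x' ⊆ ((range (t - t₁ - n * m + 1)).image (fun r => II q J' + r) ∪
      (range t₁).image (fun r => II q J' + (t - t₁) + r)) ∪
      (range n).biUnion (fun i => ((Icc 1 m).filter (fun j => ¬ D i j)).image
        (fun j => II q J' + oo m t₁ t i + j)) := by
    intro lv hlv
    obtain ⟨h1, h2, h3⟩ := mem_Bd hq hlv
    rw [← htd] at h2
    obtain ⟨r, rfl⟩ : ∃ r, lv = II q J' + r := ⟨lv - II q J', by omega⟩
    rw [mem_union, mem_union]
    rcases Nat.lt_or_ge r (t - t₁ - n * m + 1) with hr | hr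
    · exact Or.inl (Or.inl (mem_image.mpr ⟨r, mem_range.mpr hr, rfl⟩))
    rcases Nat.lt_or_ge r (t - t₁) with hr2 | hr2
    swap
    · refine Or.inl (Or.inr (mem_image.mpr ⟨r - (t - t₁), mem_range.mpr (by omega), by omega⟩))
    refine Or.inr (mem_biUnion.mpr ⟨(t - t₁ - r) / m, ?_, ?_⟩)
    · rw [mem_range, Nat.div_lt_iff_lt_mul hm]
      omega
    · set i := (t - t₁ - r) / m with hi
      have h5 : i * m ≤ t - t₁ - r := Nat.div_mul_le_self _ _
      have h6 : t - t₁ - r < i * m + m := Nat.lt_div_mul_add hm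
      have h7 : (i + 1) * m = i * m + m := by ring
      have h8 : i < n := by
        rw [hi, Nat.div_lt_iff_lt_mul hm]
        omega
      have h9 : (i + 1) * m ≤ n * m := Nat.mul_le_mul_right m h8
      have ho : oo m t₁ t i = t - t₁ - (i + 1) * m := rfl
      refine mem_image.mpr ⟨r - oo m t₁ t i, mem_filter.mpr ⟨mem_Icc.mpr ⟨by omega, by omega⟩, ?_⟩,
        by omega⟩
      rintro ⟨hd1, hd2⟩
      refine h3 ?_
      have h10 := hD q m g t J' (oo m t₁ t i) (r - oo m t₁ t i) x' V A hq hg (by omega) (by omega)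
        (by omega) (by omega) hV hA hd1 hA' hd2
      have h11 : II q J' + oo m t₁ t i + (r - oo m t₁ t i) = II q J' + r := by omega
      rwa [h11] at h10
  refine (card_le_card hsub).trans ?_
  refine (card_union_le _ _).trans ?_
  have hc1 : ((range (t - t₁ - n * m + 1)).image (fun r => II q J' + r) ∪
      (range t₁).image (fun r => II q J' + (t - t₁) + r)).card ≤ t₁ + g + m := by
    refine (card_union_le _ _).trans ?_
    have h1 : ((range (t - t₁ - n * m + 1)).image (fun r => II q J' + r)).card ≤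
        t - t₁ - n * m + 1 := card_image_le.trans (by rw [card_range])
    have h2 : ((range t₁).image (fun r => II q J' + (t - t₁) + r)).card ≤ t₁ :=
      card_image_le.trans (by rw [card_range])
    omega
  refine Nat.add_le_add hc1 (card_biUnion_le.trans (sum_le_sum fun i _ => ?_))
  refine card_image_le.trans ?_
  have h1 : ((Icc 1 m).filter (fun j => ¬ D i j)).card + ((Icc 1 m).filter (fun j => D i j)).card =
      m := by
    rw [Nat.add_comm, card_filter_add_card_filter_not]
    simp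
  have h2 : cc q m g t₁ t V A i ≤ ((Icc 1 m).filter (fun j => D i j)).card := by
    unfold cc ncar
    split_ifs with h
    · exact Nat.zero_le _
    · refine card_le_card fun j hj => ?_
      rw [mem_filter] at hj ⊢
      exact ⟨hj.1, h, hj.2⟩
  omega

end Pool.Agent.H24.FD.O42
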