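import Pool.Agent.H42.FD.ONQa

/-!
# MP_1f2761, `k = 2`: the row ONQ, part 2 (counting digits)
-/

set_option autoImplicit false

open Finset Pool.K2 Pool.FD MeasureTheory

namespace Pool.Agent.H24.FD.O42

/-- Numbers below `q ^ t` with a given digit block in `S`. -/
theorem cnt_dig {q m o t : ℕ} (hq : 0 < q) (h : o + m ≤ t) (S : Finset ℕ) :
    ((range (q ^ t)).filter fun z => z / q ^ o % q ^ m ∈ S).card ≤ q ^ (t - m) * S.card := by
  have h1 : ((range (q ^ t)).filter fun z => z / q ^ o % q ^ m ∈ S).card ≤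
      (range (q ^ (t - o - m)) ×ˢ (S ×ˢ range (q ^ o))).card := by
    refine card_le_card_of_injOn (fun z => (z / q ^ (o + m), z / q ^ o % q ^ m, z % q ^ o)) ?_ ?_
    · intro z hz
      rw [mem_coe, mem_filter, mem_range] at hz
      rw [mem_coe, mem_product, mem_product, mem_range, mem_range]
      refine ⟨?_, hz.2, Nat.mod_lt _ (by positivity)⟩
      rw [Nat.div_lt_iff_lt_mul (by positivity), ← pow_add]
      have : t - o - m + (o + m) = t := by omega
      rw [this]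
      exact hz.1
    · intro z _ z' _ hzz
      simp only [Prod.mk.injEq] at hzz
      obtain ⟨e1, e2, e3⟩ := hzz
      have h2 : ∀ z : ℕ, z = q ^ (o + m) * (z / q ^ (o + m)) + q ^ o * (z / q ^ o % q ^ m) +
          z % q ^ o := by
        intro z
        have h3 := Nat.div_add_mod z (q ^ o)
        have h4 := Nat.div_add_mod (z / q ^ o) (q ^ m)
        rw [Nat.div_div_eq_div_mul, ← pow_add] at h4
        calc z = q ^ o * (z / q ^ o) + z % q ^ o := h3.symm
          _ = q ^ o * (q ^ m * (z / q ^ (o + m)) + z / q ^ o % q ^ m) + z % q ^ o := by rw [h4]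
          _ = _ := by rw [pow_add]; ring
      rw [h2 z, h2 z', e1, e2, e3]
  refine h1.trans ?_
  rw [card_product, card_product, card_range, card_range]
  calc q ^ (t - o - m) * (S.card * q ^ o) = q ^ (t - o - m) * q ^ o * S.card := by ring
    _ = q ^ (t - m) * S.card := by
      rw [← pow_add]
      congr 2
      omega
    _ ≤ _ := le_rfl

/-- Numbers below `q ^ t` whose bottom digits are all `q - 1`. -/
theorem cnt_low {q g t : ℕ} (hq : 0 < q) (h : g ≤ t) :
    ((range (q ^ t)).filter fun z => z % q ^ g = q ^ g - 1).card ≤ q ^ (t - g) := by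
  have h1 : ((range (q ^ t)).filter fun z => z % q ^ g = q ^ g - 1).card ≤
      (range (q ^ (t - g))).card := by
    refine card_le_card_of_injOn (fun z => z / q ^ g) ?_ ?_
    · intro z hz
      rw [mem_coe, mem_filter, mem_range] at hz
      rw [mem_coe, mem_range, Nat.div_lt_iff_lt_mul (by positivity), ← pow_add]
      have : t - g + g = t := by omega
      rw [this]
      exact hz.1
    · intro z hz z' hz' hzz
      rw [mem_coe, mem_filter] at hz hz'
      have h2 := Nat.div_add_mod z (q ^ g)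
      have h3 := Nat.div_add_mod z' (q ^ g)
      have h4 : z / q ^ g = z' / q ^ g := hzz
      rw [h4, hz.2, ← hz'.2] at h2
      exact h2.symm.trans h3
  rwa [card_range] at h1

open Classical in
/-- Exceptional values of the macro-digit of `N`. -/
noncomputable def Sx (q m : ℕ) (wm : ℕ → ℕ → ℝ) (c : ℝ) : Finset ℕ :=
  (range (q ^ m)).filter fun V => ∃ A < q ^ m, wm V A ≠ 0 ∧ (ncar q m V A : ℝ) < c * m

theorem ncar_le (q m V A : ℕ) : ncar q m V A ≤ m := by
  unfold ncar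
  refine (card_filter_le _ _).trans ?_
  rw [Nat.card_Icc]
  omega

open Classical in
/-- The bound for the number of undecided levels, as a function of the digits of `N`. -/
noncomputable def FV (q m g t₁ t : ℕ) (wm : ℕ → ℕ → ℝ) (xq εk : ℝ) (V : ℕ) : ℝ :=
  t₁ + g + m + (1 - xq + εk) * t + m * ∑ i ∈ range (nb m g t₁ t),
    ((if V / q ^ oo m t₁ t i % q ^ m ∈ Sx q m wm (xq - εk) then (1 : ℝ) else 0) +
      (if V % q ^ g = q ^ g - 1 then 1 else 0))

theorem FV_nonneg {q m g t₁ t : ℕ} {wm : ℕ → ℕ → ℝ} {xq εk : ℝ} (h1 : xq ≤ 1) (h2 : 0 ≤ εk)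
    (V : ℕ) : 0 ≤ FV q m g t₁ t wm xq εk V := by
  unfold FV
  have h3 : 0 ≤ 1 - xq + εk := by linarith
  have h4 : (0 : ℝ) ≤ ∑ i ∈ range (nb m g t₁ t),
    ((if V / q ^ oo m t₁ t i % q ^ m ∈ Sx q m wm (xq - εk) then (1 : ℝ) else 0) +
      (if V % q ^ g = q ^ g - 1 then 1 else 0)) := by
    refine sum_nonneg fun i _ => add_nonneg ?_ ?_
    · split_ifs <;> norm_num
    · split_ifs <;> norm_num
  positivity

theorem cc_bound {q m g t₁ t : ℕ} {wm : ℕ → ℕ → ℝ} {xq εk : ℝ} (hq : 0 < q) (h1 : xq ≤ 1)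
    (h2 : 0 ≤ εk) (V A i : ℕ)
    (hw : wm (V / q ^ oo m t₁ t i % q ^ m) (A / q ^ oo m t₁ t i % q ^ m) ≠ 0) :
    ((m - cc q m g t₁ t V A i : ℕ) : ℝ) ≤ (1 - xq + εk) * m + m *
      ((if V / q ^ oo m t₁ t i % q ^ m ∈ Sx q m wm (xq - εk) then (1 : ℝ) else 0) +
      (if V % q ^ g = q ^ g - 1 then 1 else 0)) := by
  have hm0 : (0 : ℝ) ≤ m := Nat.cast_nonneg m
  have h3 : 0 ≤ (1 - xq + εk) * m := mul_nonneg (by linarith) hm0
  have hle : ((m - cc q m g t₁ t V A i : ℕ) : ℝ) ≤ m := by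
    exact_mod_cast Nat.sub_le _ _
  have hi1 : (0 : ℝ) ≤ (if V / q ^ oo m t₁ t i % q ^ m ∈ Sx q m wm (xq - εk) then (1 : ℝ) else 0) := by
    split_ifs <;> norm_num
  have hi2 : (0 : ℝ) ≤ (if V % q ^ g = q ^ g - 1 then (1 : ℝ) else 0) := by
    split_ifs <;> norm_num
  by_cases hg : V % q ^ g = q ^ g - 1
  · rw [if_pos hg]
    nlinarith [mul_nonneg hm0 hi1]
  · rw [if_neg hg]
    by_cases hS : V / q ^ oo m t₁ t i % q ^ m ∈ Sx q m wm (xq - εk)
    · rw [if_pos hS]
      linarith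
    · rw [if_neg hS]
      have hc : cc q m g t₁ t V A i =
          ncar q m (V / q ^ oo m t₁ t i % q ^ m) (A / q ^ oo m t₁ t i % q ^ m) := by
        unfold cc
        rw [if_neg hg]
      have hcm : cc q m g t₁ t V A i ≤ m := by
        rw [hc]
        exact ncar_le _ _ _ _
      have h4 : (xq - εk) * m ≤ (cc q m g t₁ t V A i : ℝ) := by
        rw [hc]
        by_contra hcon
        push Not at hcon
        refine hS (mem_filter.mpr ⟨mem_range.mpr (Nat.mod_lt _ (by positivity)), _,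
          Nat.mod_lt _ (by positivity), hw, hcon⟩)
      rw [Nat.cast_sub hcm]
      linarith

theorem bad_real (hD : DIGStmt) {q m g t₁ w J' : ℕ} {wm : ℕ → ℕ → ℝ} {xq εk : ℝ} (hq : 2 ≤ q)
    (hm : 1 ≤ m) (hg : 1 ≤ g) (h1 : xq ≤ 1) (h2 : 0 ≤ εk)
    (ht : t₁ + g ≤ tt q w (J' + w)) (x' : ℕ × ℕ) {V A t : ℕ} (htd : t = tt q w (J' + w))
    (hV : V = x'.1 * 2 ^ J' / q ^ II q J' % q ^ t) (hA : A = x'.2 * 2 ^ J' / q ^ II q J' % q ^ t)
    (hom : omK q m g t₁ wm t (V, A) ≠ 0) :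
    (bad q w J' x' : ℝ) ≤ FV q m g t₁ t wm xq εk V := by
  unfold omK at hom
  obtain ⟨ho1, ho2⟩ := mul_ne_zero_iff.mp hom
  rw [Finset.prod_ne_zero_iff] at ho1
  have hA' : A % q ^ g ≠ q ^ g - 1 := by
    intro h
    refine ho2 ?_
    unfold gd
    rw [if_pos h]
  have h3 := bad_cover hD hq hm hg ht x' htd hV hA hA'
  have h4 : (bad q w J' x' : ℝ) ≤ t₁ + g + m +
      ∑ i ∈ range (nb m g t₁ t), ((m - cc q m g t₁ t V A i : ℕ) : ℝ) := by
    exact_mod_cast h3
  refine h4.trans ?_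
  unfold FV
  have h5 : ∑ i ∈ range (nb m g t₁ t), ((m - cc q m g t₁ t V A i : ℕ) : ℝ) ≤
      ∑ i ∈ range (nb m g t₁ t), ((1 - xq + εk) * m + m *
      ((if V / q ^ oo m t₁ t i % q ^ m ∈ Sx q m wm (xq - εk) then (1 : ℝ) else 0) +
      (if V % q ^ g = q ^ g - 1 then 1 else 0))) := by
    refine sum_le_sum fun i hi => ?_
    exact cc_bound (by omega) h1 h2 V A i (ho1 i hi)
  rw [sum_add_distrib, sum_const, card_range, nsmul_eq_mul, ← mul_sum] at h5
  have hn : (nb m g t₁ t : ℝ) * m ≤ t := by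
    have := nb_le m g t₁ t (by omega)
    have h6 : nb m g t₁ t * m ≤ t := by omega
    exact_mod_cast h6
  have h7 : (nb m g t₁ t : ℝ) * ((1 - xq + εk) * m) ≤ (1 - xq + εk) * t := by
    have h8 : 0 ≤ 1 - xq + εk := by linarith
    nlinarith [mul_nonneg h8 (sub_nonneg.mpr hn)]
  linarith

end Pool.Agent.H24.FD.O42
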