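import Pool.Agent.H42.FD.ONQb
import Pool.Agent.H42.FD.GCE
import Pool.Agent.H78.FD.GLZ

/-!
# MP_1f2761, `k = 2`: the row ONQ, part 3 (the mean over `N`)
-/

set_option autoImplicit false

open Finset Pool.K2 Pool.FD MeasureTheory

namespace Pool.Agent.H24.FD.O42

/-- digits of the `N` part of the block -/
def Vd (q w J ν η : ℕ) : ℕ := (2 ^ w * ν + η) * 2 ^ (J - w) / q ^ II q (J - w) % q ^ tt q w J

theorem Vd_lt {q : ℕ} (hq : 2 ≤ q) (w J ν η : ℕ) : Vd q w J ν η < q ^ tt q w J :=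
  Nat.mod_lt _ (by positivity)

/-- The number of `η` with digits in `S`. -/
theorem cnt_N (hU : UNIStmt) {q w J : ℕ} (hq : 2 ≤ q) (hw : w ≤ J) (ν : ℕ) (P : ℕ → Prop)
    [DecidablePred P] (R : ℝ)
    (hR : (((range (q ^ tt q w J)).filter P).card : ℝ) ≤ R) :
    (∑ η ∈ range (2 ^ w), if P (Vd q w J ν η) then (1 : ℝ) else 0) ≤ 2 * q * R := by
  have hg := glz q w J hq hw ν 0
  obtain ⟨_, _, hy0, hy1, _⟩ := hg
  have hy' := (glz q (0 : ℕ) (J - w) hq (Nat.zero_le _) ν 0).2.2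
  have hkey := GLZ78.key q w J hq hw
  have hy2 : yy q (J - w) * 2 ^ w ≤ (q : ℝ) ^ tt q w J := by
    have h1 : (0 : ℝ) ≤ (q : ℝ) ^ tt q w J := by positivity
    calc yy q (J - w) * 2 ^ w = (q : ℝ) ^ tt q w J * yy q J := by rw [hkey]; ring
      _ ≤ (q : ℝ) ^ tt q w J * 1 := mul_le_mul_of_nonneg_left hy1 h1
      _ = _ := mul_one _
  have hc : 0 ≤ (q : ℝ) ^ tt q w J * (ν * yy q J) := by positivity
  have h2 := hU q (tt q w J) w ((q : ℝ) ^ tt q w J * (ν * yy q J)) (yy q (J - w)) hq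
    hy'.2.2.1 hy'.2.1 hy2 hc ((range (q ^ tt q w J)).filter P) (filter_subset _ _)
  rw [Finset.sum_boole]
  have h3 : ((range (2 ^ w)).filter fun η => P (Vd q w J ν η)).card ≤
      ((range (2 ^ w)).filter fun η : ℕ => fl (q ^ tt q w J)
        ((q : ℝ) ^ tt q w J * (ν * yy q J) + yy q (J - w) * η) ∈
          (range (q ^ tt q w J)).filter P).card := by
    refine card_le_card fun η hη => ?_
    rw [mem_filter] at hη ⊢
    refine ⟨hη.1, ?_⟩
    rw [← (glz q w J hq hw ν η).2.1]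
    exact mem_filter.mpr ⟨mem_range.mpr (Vd_lt hq w J ν η), hη.2⟩
  refine (Nat.cast_le.mpr h3).trans (h2.trans ?_)
  gcongr

open Classical in
theorem avg_FV (hU : UNIStmt) {q m g t₁ w J : ℕ} {wm : ℕ → ℕ → ℝ} {xq εk : ℝ} (hq : 2 ≤ q)
    (hw : w ≤ J) (h2 : 0 ≤ εk) (ht : t₁ + g ≤ tt q w J)
    (hS : ((Sx q m wm (xq - εk)).card : ℝ) ≤ εk * (q : ℝ) ^ m) (ν : ℕ) :
    ∑ η ∈ range (2 ^ w), FV q m g t₁ (tt q w J) wm xq εk (Vd q w J ν η) * (1 / 2 ^ w) ≤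
      t₁ + g + m + (1 - xq + εk) * tt q w J +
        (2 * q ^ 2 * εk + 2 * q ^ 2 / (q : ℝ) ^ g) * tt q w J := by
  have hq0 : 0 < q := by omega
  have hq0' : (0 : ℝ) < q := by exact_mod_cast hq0
  have hn := nb_le m g t₁ _ ht
  have hqt := (glz q w J hq hw ν 0).2.2.2.2.2.1.1
  set t := tt q w J with htd
  set n := nb m g t₁ t with hnd
  -- the two counts
  have hA : ∀ i ∈ range n, (∑ η ∈ range (2 ^ w),
      if Vd q w J ν η / q ^ oo m t₁ t i % q ^ m ∈ Sx q m wm (xq - εk) then (1 : ℝ) else 0) ≤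
        2 * q * (εk * (q : ℝ) ^ t) := by
    intro i hi
    have h9 : (i + 1) * m ≤ n * m := Nat.mul_le_mul_right m (mem_range.mp hi)
    have h7 : (i + 1) * m = i * m + m := by ring
    have ho : oo m t₁ t i = t - t₁ - (i + 1) * m := rfl
    refine cnt_N hU hq hw ν (fun z => z / q ^ oo m t₁ t i % q ^ m ∈ Sx q m wm (xq - εk)) _ ?_
    have h3 := cnt_dig (q := q) (m := m) (o := oo m t₁ t i) (t := t) hq0 (by omega)
      (Sx q m wm (xq - εk))
    have h4 : (((range (q ^ t)).filter fun z =>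
        z / q ^ oo m t₁ t i % q ^ m ∈ Sx q m wm (xq - εk)).card : ℝ) ≤
          (q : ℝ) ^ (t - m) * (Sx q m wm (xq - εk)).card := by exact_mod_cast h3
    refine h4.trans ?_
    calc (q : ℝ) ^ (t - m) * (Sx q m wm (xq - εk)).card ≤
          (q : ℝ) ^ (t - m) * (εk * (q : ℝ) ^ m) := by gcongr
      _ = εk * ((q : ℝ) ^ (t - m) * (q : ℝ) ^ m) := by ring
      _ = εk * (q : ℝ) ^ t := by
        rw [← pow_add]
        congr 2
        omega
  have hB : (∑ η ∈ range (2 ^ w), if Vd q w J ν η % q ^ g = q ^ g - 1 then (1 : ℝ) else 0) ≤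
        2 * q * ((q : ℝ) ^ t / (q : ℝ) ^ g) := by
    refine cnt_N hU hq hw ν (fun z => z % q ^ g = q ^ g - 1) _ ?_
    have h3 := cnt_low (q := q) (g := g) (t := t) hq0 (by omega)
    have h4 : (((range (q ^ t)).filter fun z => z % q ^ g = q ^ g - 1).card : ℝ) ≤
        (q : ℝ) ^ (t - g) := by exact_mod_cast h3
    refine h4.trans (le_of_eq ?_)
    rw [eq_div_iff (by positivity), ← pow_add]
    congr 1
    omega
  -- exchange
  have h5 : ∑ η ∈ range (2 ^ w), FV q m g t₁ t wm xq εk (Vd q w J ν η) =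
      2 ^ w * (t₁ + g + m + (1 - xq + εk) * t) + m * ∑ i ∈ range n,
        ((∑ η ∈ range (2 ^ w),
          if Vd q w J ν η / q ^ oo m t₁ t i % q ^ m ∈ Sx q m wm (xq - εk) then (1 : ℝ) else 0) +
        (∑ η ∈ range (2 ^ w), if Vd q w J ν η % q ^ g = q ^ g - 1 then (1 : ℝ) else 0)) := by
    unfold FV
    rw [sum_add_distrib, sum_const, card_range, nsmul_eq_mul, ← mul_sum, sum_comm]
    push_cast
    congr 2
    refine sum_congr rfl fun i _ => ?_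
    rw [sum_add_distrib]
  have h6 : ∑ i ∈ range n, ((∑ η ∈ range (2 ^ w),
          if Vd q w J ν η / q ^ oo m t₁ t i % q ^ m ∈ Sx q m wm (xq - εk) then (1 : ℝ) else 0) +
        (∑ η ∈ range (2 ^ w), if Vd q w J ν η % q ^ g = q ^ g - 1 then (1 : ℝ) else 0)) ≤
      n * (2 * q * (εk * (q : ℝ) ^ t) + 2 * q * ((q : ℝ) ^ t / (q : ℝ) ^ g)) := by
    refine (sum_le_sum fun i hi => add_le_add (hA i hi) hB).trans (le_of_eq ?_)
    rw [sum_const, card_range, nsmul_eq_mul]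
  have hnm : (n : ℝ) * m ≤ t := by
    have h7 : n * m ≤ t := by omega
    exact_mod_cast h7
  rw [← sum_mul, h5]
  have h2w : (0 : ℝ) < 2 ^ w := by positivity
  rw [mul_one_div, div_le_iff₀ h2w]
  have h8 : 0 ≤ 2 * (q : ℝ) * (εk * (q : ℝ) ^ t) + 2 * q * ((q : ℝ) ^ t / (q : ℝ) ^ g) := by
    positivity
  have hm0 : (0 : ℝ) ≤ m := Nat.cast_nonneg m
  have h9 : (m : ℝ) * ∑ i ∈ range n, ((∑ η ∈ range (2 ^ w),
          if Vd q w J ν η / q ^ oo m t₁ t i % q ^ m ∈ Sx q m wm (xq - εk) then (1 : ℝ) else 0) +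
        (∑ η ∈ range (2 ^ w), if Vd q w J ν η % q ^ g = q ^ g - 1 then (1 : ℝ) else 0)) ≤
      t * (2 * q * (εk * (q : ℝ) ^ t) + 2 * q * ((q : ℝ) ^ t / (q : ℝ) ^ g)) := by
    calc _ ≤ (m : ℝ) * (n * (2 * q * (εk * (q : ℝ) ^ t) + 2 * q * ((q : ℝ) ^ t / (q : ℝ) ^ g))) :=
          mul_le_mul_of_nonneg_left h6 hm0
      _ = (n * m) * (2 * q * (εk * (q : ℝ) ^ t) + 2 * q * ((q : ℝ) ^ t / (q : ℝ) ^ g)) := by ring
      _ ≤ _ := mul_le_mul_of_nonneg_right hnm h8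
  have h10 : (t : ℝ) * (2 * q * (εk * (q : ℝ) ^ t) + 2 * q * ((q : ℝ) ^ t / (q : ℝ) ^ g)) ≤
      (2 * q ^ 2 * εk + 2 * q ^ 2 / (q : ℝ) ^ g) * t * 2 ^ w := by
    have hqg : (0 : ℝ) < (q : ℝ) ^ g := by positivity
    have e1 : (t : ℝ) * (2 * q * (εk * (q : ℝ) ^ t) + 2 * q * ((q : ℝ) ^ t / (q : ℝ) ^ g)) =
        (q : ℝ) ^ t * (t * (2 * q * εk + 2 * q / (q : ℝ) ^ g)) := by ring
    have e2 : (2 * q ^ 2 * εk + 2 * q ^ 2 / (q : ℝ) ^ g) * t * 2 ^ w =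
        ((q : ℝ) * 2 ^ w) * (t * (2 * q * εk + 2 * q / (q : ℝ) ^ g)) := by ring
    rw [e1, e2]
    exact mul_le_mul_of_nonneg_right hqt (by positivity)
  nlinarith [h9, h10]

end Pool.Agent.H24.FD.O42
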